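import Pool.Agent.Helper14.TR.Pair

/-!
Block TR-3 (project TR for MP_b8862a_ag, owner helper14): Ribet's lemma for a Lie subalgebra of a sum of orthogonal
Lie algebras `so(d i)`, `d i = 1` or `d i ≥ 5`, `d i ≠ 8`.
-/

set_option linter.unusedSectionVars false
set_option linter.unusedVariables false
set_option linter.unusedSimpArgs false

open Matrix

namespace TR

section skew

variable {n : Type*} [Fintype n] [DecidableEq n]

private def A_h4 (a b : n) : Matrix n n ℂ := Matrix.single a b 1 - Matrix.single b a 1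

private lemma A_skew_h4 (a b : n) : (A_h4 a b)ᵀ = -A_h4 a b := by
  unfold A_h4
  rw [Matrix.transpose_sub, Matrix.transpose_single, Matrix.transpose_single, neg_sub]

private lemma A_neg_h4 (a b : n) : A_h4 b a = -A_h4 a b := by
  unfold A_h4
  rw [neg_sub]

private lemma A_self_h4 (a : n) : A_h4 a a = 0 := sub_self _

private lemma single_mul_h4 (a b : n) (y : Matrix n n ℂ) (i j : n) :
    (Matrix.single a b (1 : ℂ) * y) i j = if i = a then y b j else 0 := by
  rw [Matrix.mul_apply, Finset.sum_eq_single b]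
  · by_cases h : i = a
    · subst h; simp
    · rw [if_neg h, Matrix.single_apply_of_row_ne (Ne.symm h), zero_mul]
  · intro k _ hk
    rw [Matrix.single_apply_of_col_ne _ _ (Ne.symm hk), zero_mul]
  · simp

private lemma mul_single_h4 (a b : n) (y : Matrix n n ℂ) (i j : n) :
    (y * Matrix.single a b (1 : ℂ)) i j = if j = b then y i a else 0 := by
  rw [Matrix.mul_apply, Finset.sum_eq_single a]
  · by_cases h : j = b
    · subst h; simp
    · rw [if_neg h, Matrix.single_apply_of_col_ne _ _ (Ne.symm h), mul_zero]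
  · intro k _ hk
    rw [Matrix.single_apply_of_row_ne (Ne.symm hk), mul_zero]
  · simp

private lemma br_apply_h4 (a b : n) (y : Matrix n n ℂ) (i j : n) :
    (A_h4 a b * y - y * A_h4 a b) i j = (if i = a then y b j else 0) - (if i = b then y a j else 0) -
      ((if j = b then y i a else 0) - (if j = a then y i b else 0)) := by
  unfold A_h4
  rw [sub_mul, mul_sub, Matrix.sub_apply, Matrix.sub_apply, Matrix.sub_apply, single_mul_h4, single_mul_h4,
    mul_single_h4, mul_single_h4]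

private lemma sq_apply_h4 {a b : n} (hab : a ≠ b) {y : Matrix n n ℂ} (hy : yᵀ = -y) (i j : n) :
    (-(A_h4 a b * (A_h4 a b * y - y * A_h4 a b) - (A_h4 a b * y - y * A_h4 a b) * A_h4 a b)) i j =
      if ((i = a ∨ i = b) ↔ ¬ (j = a ∨ j = b)) then y i j else 0 := by
  have hs : ∀ u v, y u v = -y v u := by
    intro u v
    have := congrFun (congrFun hy v) u
    rwa [Matrix.transpose_apply, Matrix.neg_apply] at this
  have hd : ∀ u, y u u = 0 := by
    intro u
    have := hs u u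
    linear_combination (1 / 2 : ℂ) * this
  have hba : b ≠ a := hab.symm
  rw [Matrix.neg_apply, br_apply_h4, br_apply_h4, br_apply_h4, br_apply_h4, br_apply_h4]
  by_cases h1 : i = a
  · subst h1
    by_cases h2 : j = i
    · subst h2
      simp [hab, hba, hd, hs b j]
    · by_cases h3 : j = b
      · subst h3
        simp [hab, hba, hd, hs j i]
      · simp [hab, hba, hd, h2, h3]
  · by_cases h1' : i = b
    · subst h1'
      by_cases h2 : j = a
      · subst h2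
        simp [hab, hba, hd, hs j i]
      · by_cases h3 : j = i
        · subst h3
          simp [hab, hba, hd, hs a j]
        · simp [hab, hba, hd, h2, h3]
    · by_cases h2 : j = a
      · subst h2
        simp [hab, hba, hd, h1, h1']
      · by_cases h3 : j = b
        · subst h3
          simp [hab, hba, hd, h1, h1', h2]
        · simp [h1, h1', h2, h3]

private lemma eq_sum_h4 {z : Matrix n n ℂ} (hz : zᵀ = -z) : z = (1 / 2 : ℂ) • ∑ i, ∑ j, z i j • A_h4 i j := by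
  have h1 : ∑ i, ∑ j, z i j • A_h4 i j = z - zᵀ := by
    unfold A_h4
    simp only [smul_sub, Finset.sum_sub_distrib, Matrix.smul_single, smul_eq_mul, mul_one]
    congr 1
    · exact (Matrix.matrix_eq_sum_single z).symm
    · rw [Finset.sum_comm]
      exact (Matrix.matrix_eq_sum_single zᵀ).symm
  rw [h1, hz, sub_neg_eq_add, ← two_smul ℂ z, smul_smul]
  norm_num

private lemma mem_of_A_h4 (M : Submodule ℂ (Matrix n n ℂ)) (hM : ∀ i j : n, i ≠ j → A_h4 i j ∈ M)
    {z : Matrix n n ℂ} (hz : zᵀ = -z) : z ∈ M := by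
  rw [eq_sum_h4 hz]
  refine M.smul_mem _ (M.sum_mem fun i _ => M.sum_mem fun j _ => M.smul_mem _ ?_)
  by_cases h : i = j
  · rw [h, A_self_h4]
    exact M.zero_mem
  · exact hM i j h

private lemma br_A_h4 {x a c : n} (hxa : x ≠ a) (hac : a ≠ c) (hxc : x ≠ c) :
    A_h4 x a * A_h4 a c - A_h4 a c * A_h4 x a = A_h4 x c := by
  ext i j
  rw [br_apply_h4]
  unfold A_h4
  simp only [Matrix.sub_apply, Matrix.single_apply]
  by_cases h1 : i = x
  · subst h1
    by_cases h2 : j = i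
    · subst h2
      simp [hxa, hac, hxc, hxa.symm, hac.symm, hxc.symm]
    · by_cases h3 : j = a
      · subst h3
        simp [hxa, hac, hxc, hxa.symm, hac.symm, hxc.symm]
      · simp [hxa, hac, hxc, hxa.symm, hac.symm, hxc.symm, h2, h3, Ne.symm h2, Ne.symm h3]
  · by_cases h1' : i = a
    · subst h1'
      by_cases h2 : j = x
      · subst h2
        simp [hxa, hac, hxc, hxa.symm, hac.symm, hxc.symm]
      · by_cases h3 : j = i
        · subst h3
          simp [hxa, hac, hxc, hxa.symm, hac.symm, hxc.symm]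
        · simp [hxa, hac, hxc, hxa.symm, hac.symm, hxc.symm, h2, h3, Ne.symm h2, Ne.symm h3]
    · by_cases h2 : j = x
      · subst h2
        simp [hxa, hac, hxc, hxa.symm, hac.symm, hxc.symm, h1, h1', Ne.symm h1, Ne.symm h1']
      · by_cases h3 : j = a
        · subst h3
          simp [hxa, hac, hxc, hxa.symm, hac.symm, hxc.symm, h1, h1', Ne.symm h1, Ne.symm h1', h2]
        · simp [h1, h1', h2, h3, Ne.symm h1, Ne.symm h2]

/-- the skew matrices are spanned by brackets -/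
private lemma perfect_h4 (hn : 3 ≤ Fintype.card n) (M : Submodule ℂ (Matrix n n ℂ))
    (hM : ∀ u v : Matrix n n ℂ, uᵀ = -u → vᵀ = -v → u * v - v * u ∈ M) {z : Matrix n n ℂ} (hz : zᵀ = -z) : z ∈ M := by
  refine mem_of_A_h4 M (fun x c hxc => ?_) hz
  obtain ⟨a, ha⟩ : ∃ a, a ∉ ({x, c} : Finset n) := by
    by_contra h
    push Not at h
    have h1 : Fintype.card n ≤ ({x, c} : Finset n).card := Finset.card_le_card (fun a _ => h a)
    have h2 : ({x, c} : Finset n).card ≤ 2 := Finset.card_le_two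
    omega
  rw [Finset.mem_insert, Finset.mem_singleton] at ha
  push Not at ha
  rw [← br_A_h4 (Ne.symm ha.1) ha.2 hxc]
  exact hM _ _ (A_skew_h4 _ _) (A_skew_h4 _ _)

private lemma key_h4 {a b c d e i j : n} (hac : a ≠ c) (hba : b ≠ a) (hbc : b ≠ c) (hda : d ≠ a) (hdc : d ≠ c)
    (hea : e ≠ a) (hec : e ≠ c) (hbd : b ≠ d) (hbe : b ≠ e) (hde : d ≠ e)
    (h1 : (i = a ∨ i = b) ↔ ¬ (j = a ∨ j = b)) (h2 : (i = c ∨ i = d) ↔ ¬ (j = c ∨ j = d))
    (h3 : (i = a ∨ i = e) ↔ ¬ (j = a ∨ j = e)) (h4 : (i = c ∨ i = e) ↔ ¬ (j = c ∨ j = e)) :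
    (i = a ∧ j = c) ∨ (i = c ∧ j = a) := by
  grind

/-- simplicity -/
private lemma simple_h4 (hn : 5 ≤ Fintype.card n) (I : Submodule ℂ (Matrix n n ℂ)) (hI : ∀ y ∈ I, yᵀ = -y)
    (hbr : ∀ x : Matrix n n ℂ, xᵀ = -x → ∀ y ∈ I, x * y - y * x ∈ I) {y : Matrix n n ℂ} (hy : y ∈ I) (hy0 : y ≠ 0)
    {z : Matrix n n ℂ} (hz : zᵀ = -z) : z ∈ I := by
  obtain ⟨a, c, hac⟩ : ∃ a c, y a c ≠ 0 := by
    by_contra h
    push Not at h
    exact hy0 (by ext i j; exact h i j)
  have hne : a ≠ c := by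
    rintro rfl
    have := congrFun (congrFun (hI y hy) a) a
    rw [Matrix.transpose_apply, Matrix.neg_apply] at this
    apply hac
    linear_combination (1 / 2 : ℂ) * this
  obtain ⟨b, hb, d, hd, e, he, hbd, hbe, hde⟩ : ∃ b ∈ Finset.univ \ ({a, c} : Finset n), ∃ d ∈ Finset.univ \ ({a, c} : Finset n),
      ∃ e ∈ Finset.univ \ ({a, c} : Finset n), b ≠ d ∧ b ≠ e ∧ d ≠ e := by
    rw [← Finset.two_lt_card]
    have h1 := Finset.card_sdiff_add_card_eq_card (Finset.subset_univ ({a, c} : Finset n))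
    have h2 : ({a, c} : Finset n).card ≤ 2 := Finset.card_le_two
    rw [Finset.card_univ] at h1
    omega
  simp only [Finset.mem_sdiff, Finset.mem_univ, true_and, Finset.mem_insert, Finset.mem_singleton, not_or] at hb hd he
  have hQ : ∀ (u v : n) (w : Matrix n n ℂ), w ∈ I →
      -(A_h4 u v * (A_h4 u v * w - w * A_h4 u v) - (A_h4 u v * w - w * A_h4 u v) * A_h4 u v) ∈ I := by
    intro u v w hw
    exact I.neg_mem (hbr _ (A_skew_h4 u v) _ (hbr _ (A_skew_h4 u v) w hw))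
  set y1 := -(A_h4 a b * (A_h4 a b * y - y * A_h4 a b) - (A_h4 a b * y - y * A_h4 a b) * A_h4 a b) with hy1
  have m1 : y1 ∈ I := hQ a b y hy
  set y2 := -(A_h4 c d * (A_h4 c d * y1 - y1 * A_h4 c d) - (A_h4 c d * y1 - y1 * A_h4 c d) * A_h4 c d) with hy2
  have m2 : y2 ∈ I := hQ c d y1 m1
  set y3 := -(A_h4 a e * (A_h4 a e * y2 - y2 * A_h4 a e) - (A_h4 a e * y2 - y2 * A_h4 a e) * A_h4 a e) with hy3
  have m3 : y3 ∈ I := hQ a e y2 m2
  set y4 := -(A_h4 c e * (A_h4 c e * y3 - y3 * A_h4 c e) - (A_h4 c e * y3 - y3 * A_h4 c e) * A_h4 c e) with hy4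
  have m4 : y4 ∈ I := hQ c e y3 m3
  have e1 : ∀ i j, y1 i j = if ((i = a ∨ i = b) ↔ ¬ (j = a ∨ j = b)) then y i j else 0 :=
    fun i j => sq_apply_h4 (Ne.symm hb.1) (hI y hy) i j
  have e2 : ∀ i j, y2 i j = if ((i = c ∨ i = d) ↔ ¬ (j = c ∨ j = d)) then y1 i j else 0 :=
    fun i j => sq_apply_h4 (Ne.symm hd.2) (hI y1 m1) i j
  have e3 : ∀ i j, y3 i j = if ((i = a ∨ i = e) ↔ ¬ (j = a ∨ j = e)) then y2 i j else 0 :=
    fun i j => sq_apply_h4 (Ne.symm he.1) (hI y2 m2) i j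
  have e4 : ∀ i j, y4 i j = if ((i = c ∨ i = e) ↔ ¬ (j = c ∨ j = e)) then y3 i j else 0 :=
    fun i j => sq_apply_h4 (Ne.symm he.2) (hI y3 m3) i j
  have hyca : y c a = -y a c := by
    have := congrFun (congrFun (hI y hy) a) c
    rwa [Matrix.transpose_apply, Matrix.neg_apply] at this
  have h4 : y4 = y a c • A_h4 a c := by
    ext i j
    rw [e4, e3, e2, e1, Matrix.smul_apply]
    unfold A_h4
    rw [Matrix.sub_apply, Matrix.single_apply, Matrix.single_apply]
    by_cases p4 : ((i = c ∨ i = e) ↔ ¬ (j = c ∨ j = e))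
    · rw [if_pos p4]
      by_cases p3 : ((i = a ∨ i = e) ↔ ¬ (j = a ∨ j = e))
      · rw [if_pos p3]
        by_cases p2 : ((i = c ∨ i = d) ↔ ¬ (j = c ∨ j = d))
        · rw [if_pos p2]
          by_cases p1 : ((i = a ∨ i = b) ↔ ¬ (j = a ∨ j = b))
          · rw [if_pos p1]
            rcases key_h4 hne hb.1 hb.2 hd.1 hd.2 he.1 he.2 hbd hbe hde p1 p2 p3 p4 with ⟨rfl, rfl⟩ | ⟨rfl, rfl⟩
            · simp [hne.symm]
            · simp [hne, hyca]
          · rw [if_neg p1, if_neg, if_neg, sub_zero, smul_zero]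
            · rintro ⟨rfl, rfl⟩
              exact p1 (by grind)
            · rintro ⟨rfl, rfl⟩
              exact p1 (by grind)
        · rw [if_neg p2, if_neg, if_neg, sub_zero, smul_zero]
          · rintro ⟨rfl, rfl⟩
            exact p2 (by grind)
          · rintro ⟨rfl, rfl⟩
            exact p2 (by grind)
      · rw [if_neg p3, if_neg, if_neg, sub_zero, smul_zero]
        · rintro ⟨rfl, rfl⟩
          exact p3 (by grind)
        · rintro ⟨rfl, rfl⟩
          exact p3 (by grind)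
    · rw [if_neg p4, if_neg, if_neg, sub_zero, smul_zero]
      · rintro ⟨rfl, rfl⟩
        exact p4 (by grind)
      · rintro ⟨rfl, rfl⟩
        exact p4 (by grind)
  have hA : A_h4 a c ∈ I := by
    have := I.smul_mem (y a c)⁻¹ m4
    rwa [h4, smul_smul, inv_mul_cancel₀ hac, one_smul] at this
  have hneg : ∀ u v : n, A_h4 u v ∈ I → A_h4 v u ∈ I := by
    intro u v h
    rw [A_neg_h4]
    exact I.neg_mem h
  have hstep : ∀ u v x : n, u ≠ v → x ≠ v → A_h4 u v ∈ I → A_h4 x v ∈ I := by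
    intro u v x huv hxv h
    by_cases hxu : x = u
    · rw [hxu]
      exact h
    · rw [← br_A_h4 hxu huv hxv]
      exact hbr _ (A_skew_h4 _ _) _ h
  have hAll : ∀ x z : n, x ≠ z → A_h4 x z ∈ I := by
    intro x z hxz
    by_cases hxc : x = c
    · subst hxc
      -- A a x ∈ I, want A x z
      by_cases hza : z = a
      · subst hza
        exact hneg _ _ hA
      · exact hneg _ _ (hstep a x z hne (Ne.symm hxz) hA)
    · -- A x c ∈ I, A c x ∈ I, A z x ∈ I, A x z ∈ I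
      exact hneg _ _ (hstep c x z (Ne.symm hxc) (Ne.symm hxz) (hneg _ _ (hstep a c x hne hxc hA)))
  exact mem_of_A_h4 I hAll hz

end skew

private lemma skew_one_h4 {m : ℕ} (hm : m = 1) {y : Matrix (Fin m) (Fin m) ℂ} (hy : yᵀ = -y) : y = 0 := by
  subst hm
  ext i j
  have := congrFun (congrFun hy i) j
  rw [Matrix.transpose_apply, Matrix.neg_apply, Subsingleton.elim j i] at this
  rw [Subsingleton.elim j i, Matrix.zero_apply]
  linear_combination (1 / 2 : ℂ) * this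

section main

variable {k : ℕ} {d : Fin k → ℕ} {L : Submodule ℂ (∀ i, Matrix (Fin (d i)) (Fin (d i)) ℂ)}

/-- the projection to `a` of the elements of `L` that vanish on `A` -/
private noncomputable def K_h4 (L : Submodule ℂ (∀ i, Matrix (Fin (d i)) (Fin (d i)) ℂ)) (A : Finset (Fin k)) (a : Fin k) :
    Submodule ℂ (Matrix (Fin (d a)) (Fin (d a)) ℂ) where
  carrier := {y | ∃ x ∈ L, (∀ l ∈ A, x l = 0) ∧ x a = y}
  add_mem' := by
    rintro _ _ ⟨x, hx, hx0, rfl⟩ ⟨y, hy, hy0, rfl⟩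
    refine ⟨x + y, L.add_mem hx hy, fun l hl => ?_, rfl⟩
    rw [Pi.add_apply, hx0 l hl, hy0 l hl, add_zero]
  zero_mem' := ⟨0, L.zero_mem, fun l _ => rfl, rfl⟩
  smul_mem' := by
    rintro c _ ⟨x, hx, hx0, rfl⟩
    refine ⟨c • x, L.smul_mem c hx, fun l hl => ?_, rfl⟩
    rw [Pi.smul_apply, hx0 l hl, smul_zero]

private lemma mem_K_h4 {A : Finset (Fin k)} {a : Fin k} {y : Matrix (Fin (d a)) (Fin (d a)) ℂ} :
    y ∈ K_h4 L A a ↔ ∃ x ∈ L, (∀ l ∈ A, x l = 0) ∧ x a = y := Iff.rfl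

private lemma pair_h4 (hd : ∀ i, d i = 1 ∨ 5 ≤ d i ∧ d i ≠ 8)
    (hsk : ∀ x ∈ L, ∀ i, (x i)ᵀ = -x i)
    (hbr : ∀ x ∈ L, ∀ y ∈ L, (fun i => x i * y i - y i * x i) ∈ L)
    (hsur : ∀ i, ∀ y : Matrix (Fin (d i)) (Fin (d i)) ℂ, yᵀ = -y → ∃ x ∈ L, x i = y)
    (hT : ∀ i j, i ≠ j → ∀ T : Matrix (Fin (d j)) (Fin (d i)) ℂ, (∀ x ∈ L, T * x i = x j * T) → T = 0)
    {a b : Fin k} (hab : a ≠ b) {y : Matrix (Fin (d a)) (Fin (d a)) ℂ} (hy : yᵀ = -y) : ∃ x ∈ L, x a = y ∧ x b = 0 := by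
  rcases hd a with ha | ha
  · exact ⟨0, L.zero_mem, (skew_one_h4 ha hy).symm, rfl⟩
  rcases hd b with hb | hb
  · obtain ⟨x, hx, hxa⟩ := hsur a y hy
    exact ⟨x, hx, hxa, skew_one_h4 hb (hsk x hx b)⟩
  have hK : ∀ a b : Fin k, 5 ≤ d a → (∃ x ∈ L, x b = 0 ∧ x a ≠ 0) → ∀ y : Matrix (Fin (d a)) (Fin (d a)) ℂ, yᵀ = -y →
      ∃ x ∈ L, x a = y ∧ x b = 0 := by
    rintro a b ha ⟨x, hx, hxb, hxa⟩ y hy
    have h1 : y ∈ K_h4 L {b} a := by
      refine simple_h4 (by rw [Fintype.card_fin]; exact ha) (K_h4 L {b} a) ?_ ?_ (y := x a) ?_ hxa hy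
      · rintro _ ⟨x, hx, _, rfl⟩
        exact hsk x hx a
      · rintro u hu _ ⟨x, hx, hx0, rfl⟩
        obtain ⟨v, hv, rfl⟩ := hsur a u hu
        refine ⟨_, hbr v hv x hx, fun l hl => ?_, rfl⟩
        rw [hx0 l hl, mul_zero, zero_mul, sub_zero]
      · exact ⟨x, hx, fun l hl => by rw [Finset.mem_singleton.1 hl]; exact hxb, rfl⟩
    obtain ⟨z, hz, hz0, hza⟩ := mem_K_h4.1 h1
    exact ⟨z, hz, hza, hz0 b (Finset.mem_singleton_self b)⟩
  by_cases hKa : ∃ x ∈ L, x b = 0 ∧ x a ≠ 0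
  · exact hK a b ha.1 hKa y hy
  by_cases hKb : ∃ x ∈ L, x a = 0 ∧ x b ≠ 0
  · obtain ⟨x, hx, hxa⟩ := hsur a y hy
    obtain ⟨z, hz, hzb, hza⟩ := hK b a hb.1 hKb (x b) (hsk x hx b)
    refine ⟨x - z, L.sub_mem hx hz, ?_, ?_⟩
    · rw [Pi.sub_apply, hza, hxa, sub_zero]
    · rw [Pi.sub_apply, hzb, sub_self]
  exfalso
  push Not at hKa hKb
  let G : L →ₗ[ℂ] sk (Fin (d a)) :=
    { toFun := fun x => ⟨x.1 a, hsk x.1 x.2 a⟩
      map_add' := fun x y => rfl
      map_smul' := fun c x => rfl }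
  let F : L →ₗ[ℂ] sk (Fin (d b)) :=
    { toFun := fun x => ⟨x.1 b, hsk x.1 x.2 b⟩
      map_add' := fun x y => rfl
      map_smul' := fun c x => rfl }
  have hG : Function.Surjective G := by
    rintro ⟨y, hy⟩
    obtain ⟨x, hx, rfl⟩ := hsur a y hy
    exact ⟨⟨x, hx⟩, rfl⟩
  have hF : Function.Surjective F := by
    rintro ⟨y, hy⟩
    obtain ⟨x, hx, rfl⟩ := hsur b y hy
    exact ⟨⟨x, hx⟩, rfl⟩
  have hker : LinearMap.ker G = LinearMap.ker F := by
    ext x
    rw [LinearMap.mem_ker, LinearMap.mem_ker]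
    constructor
    · intro h
      apply Subtype.ext
      exact hKb x.1 x.2 (congrArg Subtype.val h)
    · intro h
      apply Subtype.ext
      exact hKa x.1 x.2 (congrArg Subtype.val h)
  let φ : sk (Fin (d a)) ≃ₗ[ℂ] sk (Fin (d b)) := (LinearMap.quotKerEquivOfSurjective G hG).symm ≪≫ₗ
    Submodule.quotEquivOfEq _ _ hker ≪≫ₗ LinearMap.quotKerEquivOfSurjective F hF
  have hφ : ∀ x : L, φ (G x) = F x := by
    intro x
    have h1 : (LinearMap.quotKerEquivOfSurjective G hG).symm (G x) = Submodule.Quotient.mk x := by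
      rw [LinearEquiv.symm_apply_eq]
      rfl
    show (LinearMap.quotKerEquivOfSurjective F hF) (Submodule.quotEquivOfEq _ _ hker
      ((LinearMap.quotKerEquivOfSurjective G hG).symm (G x))) = F x
    rw [h1]
    rfl
  have hφb : ∀ x y : sk (Fin (d a)), φ (adS x y) = adS (φ x) (φ y) := by
    intro x y
    obtain ⟨X, rfl⟩ := hG x
    obtain ⟨Y, rfl⟩ := hG y
    have h1 : adS (G X) (G Y) = G ⟨_, hbr X.1 X.2 Y.1 Y.2⟩ := rfl
    rw [h1, hφ, hφ, hφ]
    rfl
  obtain ⟨T, hT0, hTx⟩ := pair_iso' (n := Fin (d a)) (m := Fin (d b)) (by rw [Fintype.card_fin]; omega)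
    (by rw [Fintype.card_fin]; exact ha.2) φ hφb
  refine hT0 (hT a b hab T fun x hx => ?_)
  have := hTx (G ⟨x, hx⟩)
  rw [hφ] at this
  exact this

end main

/-- Ribet's lemma -/
theorem core' {k : ℕ} (d : Fin k → ℕ) (hd : ∀ i, d i = 1 ∨ 5 ≤ d i ∧ d i ≠ 8)
    (L : Submodule ℂ (∀ i, Matrix (Fin (d i)) (Fin (d i)) ℂ))
    (hsk : ∀ x ∈ L, ∀ i, (x i)ᵀ = -x i)
    (hbr : ∀ x ∈ L, ∀ y ∈ L, (fun i => x i * y i - y i * x i) ∈ L)
    (hsur : ∀ i, ∀ y : Matrix (Fin (d i)) (Fin (d i)) ℂ, yᵀ = -y → ∃ x ∈ L, x i = y)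
    (hT : ∀ i j, i ≠ j → ∀ T : Matrix (Fin (d j)) (Fin (d i)) ℂ, (∀ x ∈ L, T * x i = x j * T) → T = 0)
    (x : ∀ i, Matrix (Fin (d i)) (Fin (d i)) ℂ) (hx : ∀ i, (x i)ᵀ = -x i) : x ∈ L := by
  have key : ∀ (i : Fin k) (A : Finset (Fin k)), i ∉ A → ∀ y : Matrix (Fin (d i)) (Fin (d i)) ℂ, yᵀ = -y →
      ∃ z ∈ L, (∀ l ∈ A, z l = 0) ∧ z i = y := by
    intro i A
    rcases hd i with hi | hi
    · intro _ y hy
      exact ⟨0, L.zero_mem, fun l _ => rfl, (skew_one_h4 hi hy).symm⟩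
    · induction A using Finset.induction_on with
      | empty =>
        intro _ y hy
        obtain ⟨z, hz, hzi⟩ := hsur i y hy
        exact ⟨z, hz, fun l hl => absurd hl (Finset.notMem_empty l), hzi⟩
      | insert a A haA ih =>
        intro hiA y hy
        rw [Finset.mem_insert, not_or] at hiA
        refine mem_K_h4.1 (perfect_h4 (by rw [Fintype.card_fin]; omega) (K_h4 L (insert a A) i) ?_ hy)
        intro u v hu hv
        obtain ⟨z, hz, hz0, rfl⟩ := ih hiA.2 u hu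
        obtain ⟨w, hw, rfl, hw0⟩ := pair_h4 hd hsk hbr hsur hT hiA.1 hv
        refine ⟨_, hbr z hz w hw, fun l hl => ?_, rfl⟩
        rcases Finset.mem_insert.1 hl with rfl | hl
        · rw [hw0, mul_zero, zero_mul, sub_zero]
        · rw [hz0 l hl, mul_zero, zero_mul, sub_zero]
  rw [← Finset.univ_sum_single x]
  refine L.sum_mem fun i _ => ?_
  obtain ⟨z, hz, hz0, hzi⟩ := key i (Finset.univ.erase i) (Finset.notMem_erase i _) (x i) (hx i)
  have : Pi.single i (x i) = z := by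
    ext1 l
    by_cases hl : l = i
    · subst hl
      rw [Pi.single_eq_same, hzi]
    · rw [Pi.single_eq_of_ne hl, hz0 l (Finset.mem_erase.2 ⟨hl, Finset.mem_univ l⟩)]
  rw [this]
  exact hz

theorem core {k : ℕ} (d : Fin k → ℕ) (hd : ∀ i, d i = 1 ∨ 9 ≤ d i)
    (L : Submodule ℂ (∀ i, Matrix (Fin (d i)) (Fin (d i)) ℂ))
    (hsk : ∀ x ∈ L, ∀ i, (x i)ᵀ = -x i)
    (hbr : ∀ x ∈ L, ∀ y ∈ L, (fun i => x i * y i - y i * x i) ∈ L)
    (hsur : ∀ i, ∀ y : Matrix (Fin (d i)) (Fin (d i)) ℂ, yᵀ = -y → ∃ x ∈ L, x i = y)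
    (hT : ∀ i j, i ≠ j → ∀ T : Matrix (Fin (d j)) (Fin (d i)) ℂ, (∀ x ∈ L, T * x i = x j * T) → T = 0)
    (x : ∀ i, Matrix (Fin (d i)) (Fin (d i)) ℂ) (hx : ∀ i, (x i)ᵀ = -x i) : x ∈ L :=
  core' d (fun i => by have := hd i; omega) L hsk hbr hsur hT x hx

end TR
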