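import Pool.Agent.Helper14.TR.Defs

/-!
Block TR-8a (project TR for MP_b8862a_ag, owner helper14): Galois descent for tensors.
-/

set_option linter.unusedSectionVars false

open Matrix

namespace MH

variable {n : Type*} [Fintype n] [DecidableEq n]

/-- Galois descent for vectors: a space of complex vectors stable under the automorphisms of the complex numbers is
spanned by its rational vectors. -/
private lemma desc_h4 {ι : Type*} [Fintype ι] (W : Submodule ℂ (ι → ℂ))
    (hW : ∀ σ : ℂ ≃+* ℂ, ∀ t ∈ W, (fun i => σ (t i)) ∈ W) : ∀ (k : ℕ) (t : ι → ℂ), t ∈ W →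
      (Finset.univ.filter (fun i => t i ≠ 0)).card = k →
      t ∈ Submodule.span ℂ {x | ∃ s : ι → ℚ, x = tC s ∧ x ∈ W} := by
  classical
  intro k
  induction k using Nat.strong_induction_on with
  | _ k ih =>
    intro t ht hk
    by_cases ht0 : t = 0
    · rw [ht0]
      exact Submodule.zero_mem _
    have hex : ∃ k' : ℕ, ∃ u ∈ W, u ≠ 0 ∧ (∀ i, t i = 0 → u i = 0) ∧
        (Finset.univ.filter (fun i => u i ≠ 0)).card = k' := ⟨_, t, ht, ht0, fun i h => h, rfl⟩
    obtain ⟨u, hu, hu0, hut, huk⟩ := Nat.find_spec hex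
    have hmin : ∀ w ∈ W, (∀ i, t i = 0 → w i = 0) →
        (Finset.univ.filter (fun i => w i ≠ 0)).card < (Finset.univ.filter (fun i => u i ≠ 0)).card → w = 0 := by
      intro w hw hwt hwk
      by_contra hw0
      rw [huk] at hwk
      exact Nat.find_min hex hwk ⟨w, hw, hw0, hwt, rfl⟩
    obtain ⟨i, hi⟩ : ∃ i, u i ≠ 0 := by
      by_contra h
      push Not at h
      exact hu0 (funext h)
    have hti : t i ≠ 0 := fun h => hi (hut i h)
    set u₁ : ι → ℂ := (u i)⁻¹ • u with hu₁
    have hu₁W : u₁ ∈ W := W.smul_mem _ hu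
    have hu₁i : u₁ i = 1 := by
      rw [hu₁, Pi.smul_apply, smul_eq_mul, inv_mul_cancel₀ hi]
    have hu₁z : ∀ j, u j = 0 → u₁ j = 0 := by
      intro j hj
      rw [hu₁, Pi.smul_apply, hj, smul_zero]
    have hfix : ∀ σ : ℂ ≃+* ℂ, u₁ - (fun j => σ (u₁ j)) = 0 := by
      intro σ
      apply hmin _ (W.sub_mem hu₁W (hW σ u₁ hu₁W))
      · intro j hj
        have h1 := hu₁z j (hut j hj)
        rw [Pi.sub_apply, h1, map_zero, sub_zero]
      · apply Finset.card_lt_card
        rw [Finset.ssubset_iff_of_subset]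
        · refine ⟨i, ?_, ?_⟩
          · simpa using hi
          · simp [hu₁i]
        · intro j hj
          rw [Finset.mem_filter] at hj ⊢
          refine ⟨Finset.mem_univ _, fun h => hj.2 ?_⟩
          rw [Pi.sub_apply, hu₁z j h, map_zero, sub_zero]
    have hrat : ∀ j, ∃ r : ℚ, (r : ℂ) = u₁ j := by
      intro j
      by_contra h
      push Not at h
      obtain ⟨σ, hσ⟩ := exists_aut_ne h
      apply hσ
      have h2 := congrFun (hfix σ) j
      rw [Pi.sub_apply, Pi.zero_apply, sub_eq_zero] at h2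
      exact h2.symm
    choose s hs using hrat
    have hus : u₁ = tC s := by
      funext j
      rw [← hs j]
      simp [tC]
    have h1 : u₁ ∈ Submodule.span ℂ {x | ∃ s : ι → ℚ, x = tC s ∧ x ∈ W} :=
      Submodule.subset_span ⟨s, hus, hu₁W⟩
    have h2 : t - t i • u₁ ∈ Submodule.span ℂ {x | ∃ s : ι → ℚ, x = tC s ∧ x ∈ W} := by
      refine ih (Finset.univ.filter (fun j => (t - t i • u₁) j ≠ 0)).card ?_ _
        (W.sub_mem ht (W.smul_mem _ hu₁W)) rfl
      rw [← hk]
      apply Finset.card_lt_card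
      rw [Finset.ssubset_iff_of_subset]
      · refine ⟨i, ?_, ?_⟩
        · simpa using hti
        · simp [hu₁i]
      · intro j hj
        rw [Finset.mem_filter] at hj ⊢
        refine ⟨Finset.mem_univ _, fun h => hj.2 ?_⟩
        rw [Pi.sub_apply, Pi.smul_apply, h, hu₁z j (hut j h), smul_zero, sub_zero]
    have h3 := Submodule.add_mem _ h2 (Submodule.smul_mem _ (t i) h1)
    rwa [sub_add_cancel] at h3

private theorem dact_add_right_h4 {R κ : Type*} [CommRing R] [Fintype κ] [DecidableEq κ] (X : κ → Matrix n n R)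
    (t u : (κ → n) → R) : dact X (t + u) = dact X t + dact X u := by
  unfold dact
  rw [← Finset.sum_add_distrib]
  exact Finset.sum_congr rfl fun k _ => actF_add _ _ _

private theorem dact_smul_right_h4 {R κ : Type*} [CommRing R] [Fintype κ] [DecidableEq κ] (X : κ → Matrix n n R)
    (c : R) (t : (κ → n) → R) : dact X (c • t) = c • dact X t := by
  unfold dact
  rw [Finset.smul_sum]
  exact Finset.sum_congr rfl fun k _ => actF_smul _ _ _

variable {m : ℤ} {Q : Matrix n n ℚ} {S : Finset ℤ} {P : ℤ → Matrix n n ℂ}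

/-- Galois descent for tensors: a complex tensor killed by all the conjugates of `h = ∑ p P p` is a combination of
Hodge tensors, hence fixed by `MT` -/
theorem MT_fix_of_kill (H : IsHS m Q S P) {a b : ℕ} {t : (Fin a ⊕ Fin b → n) → ℂ}
    (ht : ∀ σ : ℂ ≃+* ℂ, dL a b t ((∑ p ∈ S, (p : ℂ) • P p).map σ) = 0) {g : GL n ℂ} (hg : g ∈ MT S P) :
    actF (slot a b (g : Matrix n n ℂ) ((g⁻¹ : GL n ℂ) : Matrix n n ℂ)) t = t := by
  classical
  set h₀ : Matrix n n ℂ := ∑ p ∈ S, (p : ℂ) • P p with hh₀
  let W : Submodule ℂ ((Fin a ⊕ Fin b → n) → ℂ) :=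
    { carrier := {t | ∀ σ : ℂ ≃+* ℂ, dL a b t (h₀.map σ) = 0}
      add_mem' := by
        intro x y hx hy σ
        rw [dL_apply, dact_add_right_h4, ← dL_apply, ← dL_apply, hx σ, hy σ, add_zero]
      zero_mem' := by
        intro σ
        rw [dL_apply, dact_zero]
      smul_mem' := by
        intro c x hx σ
        rw [dL_apply, dact_smul_right_h4, ← dL_apply, hx σ, smul_zero] }
  have hW : ∀ σ : ℂ ≃+* ℂ, ∀ x ∈ W, (fun i => σ (x i)) ∈ W := by
    intro σ x hx ρ
    have h1 := hx (ρ.trans σ.symm)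
    rw [dL_apply] at h1
    rw [dL_apply]
    funext i
    have h2 := dact_map (σ : ℂ →+* ℂ) (lslot a b (h₀.map (ρ.trans σ.symm))) x i
    rw [h1, Pi.zero_apply, map_zero] at h2
    rw [Pi.zero_apply, ← h2]
    congr 1
    funext k
    rcases k with k | k
    · simp only [lslot, Sum.elim_inl]
      ext x y
      simp
    · simp only [lslot, Sum.elim_inr]
      ext x y
      simp
  have hspan := desc_h4 W hW _ t ht rfl
  have hfix : ∀ x ∈ Submodule.span ℂ {x | ∃ s : (Fin a ⊕ Fin b → n) → ℚ, x = tC s ∧ x ∈ W},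
      actF (slot a b (g : Matrix n n ℂ) ((g⁻¹ : GL n ℂ) : Matrix n n ℂ)) x = x := by
    intro x hx
    induction hx using Submodule.span_induction with
    | mem x hx =>
      obtain ⟨s, rfl, hs⟩ := hx
      apply hg
      have h1 := hs (RingEquiv.refl ℂ)
      have h2 : h₀.map (RingEquiv.refl ℂ) = h₀ := by
        ext i j
        rfl
      rw [h2] at h1
      exact (H.idm.inv_iff a b (tC s)).2 h1
    | zero => exact actF_zero _
    | add x y _ _ hx hy => rw [actF_add, hx, hy]
    | smul c x _ hx => rw [actF_smul, hx]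
  exact hfix t hspan

end MH
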