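import Pool.Agent.Helper4.TR.Wf

/-! Block S-E1 (exact statement). -/

open Module MTPairs

namespace TR

/-- S-E1: `wedge^n` of the standard representation of `GL_2n`, `n ≥ 3` odd. -/
theorem strong_wedge (K : Type*) [Field K] [CharZero K] {n : ℕ} (hn : Odd n) (hn3 : 3 ≤ n) :
    ∃ (m : Type) (_ : Fintype m) (_ : DecidableEq m)
      (J : Matrix m m K) (G : Subgroup (Matrix.GeneralLinearGroup m K)) (π : Matrix m m K),
      Fintype.card m = (2 * n).choose n ∧ IsStrongMTPair ⊥ J G π ∧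
      IsSplit J G (fun _ : Unit => (⊤ : Submodule K (m → K))) ∧
      (∃ u ∈ G, IsQuadraticOn u ⊤ ((2 * n - 2).choose (n - 1))) ∧
      ¬ IsFull J G (fun _ : Unit => (⊤ : Submodule K (m → K))) := by
  obtain ⟨ι, h1, h2, J, G, π, hc, -, hG, hS, hu, hF⟩ := W3.wedge_example K hn hn3
  exact ⟨ι, h1, h2, J, G, π, hc, hG, hS, hu, hF⟩

end TR
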