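import Mathlib

/-!
Creation and annihilation operators on functions on the finite subsets of a linear order.
-/

open Module

namespace TR.W3

variable {K : Type*} [Field K] {ι : Type*} [LinearOrder ι]

/-- The sign of a pair of indices. -/
def ch (K : Type*) [Field K] (j i : ι) : K := if j < i then -1 else 1

/-- The sign of an index and a subset. -/
def sg (K : Type*) [Field K] (i : ι) (S : Finset (ι)) : K := ∏ s ∈ S, ch K s i

lemma ch_sq (j i : ι) : ch K j i * ch K j i = 1 := by
  unfold ch; split_ifs <;> ring

lemma ch_self (i : ι) : ch K i i = 1 := by simp [ch]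

lemma ch_add {i j : ι} (h : i ≠ j) : ch K i j + ch K j i = 0 := by
  unfold ch
  rcases lt_or_gt_of_ne h with h | h
  · rw [if_pos h, if_neg (not_lt.mpr h.le)]; ring
  · rw [if_neg (not_lt.mpr h.le), if_pos h]; ring

lemma sg_sq (i : ι) (S : Finset (ι)) : sg K i S * sg K i S = 1 := by
  unfold sg
  rw [← Finset.prod_mul_distrib]
  exact Finset.prod_eq_one fun s _ => ch_sq s i

lemma sg_insert {i j : ι} {S : Finset (ι)} (h : j ∉ S) :
    sg K i (insert j S) = ch K j i * sg K i S := by
  unfold sg
  rw [Finset.prod_insert h]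

lemma sg_erase {i j : ι} {S : Finset (ι)} (h : j ∈ S) :
    sg K i (S.erase j) = ch K j i * sg K i S := by
  have h1 := sg_insert (K := K) (i := i) (Finset.notMem_erase j S)
  rw [Finset.insert_erase h] at h1
  rw [h1, ← mul_assoc, ch_sq, one_mul]

/-- Creation operators. -/
def Cr (K : Type*) [Field K] (i : ι) : Module.End K (Finset (ι) → K) where
  toFun f S := if i ∈ S then sg K i S * f (S.erase i) else 0
  map_add' f g := by
    ext S; simp only [Pi.add_apply]; split_ifs <;> ring
  map_smul' c f := by
    ext S; simp only [Pi.smul_apply, smul_eq_mul, RingHom.id_apply]; split_ifs <;> ring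

/-- Annihilation operators. -/
def An (K : Type*) [Field K] (i : ι) : Module.End K (Finset (ι) → K) where
  toFun f S := if i ∈ S then 0 else sg K i S * f (insert i S)
  map_add' f g := by
    ext S; simp only [Pi.add_apply]; split_ifs <;> ring
  map_smul' c f := by
    ext S; simp only [Pi.smul_apply, smul_eq_mul, RingHom.id_apply]; split_ifs <;> ring

lemma Cr_apply (i : ι) (f : Finset (ι) → K) (S : Finset (ι)) :
    Cr K i f S = if i ∈ S then sg K i S * f (S.erase i) else 0 := rfl

lemma An_apply (i : ι) (f : Finset (ι) → K) (S : Finset (ι)) :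
    An K i f S = if i ∈ S then 0 else sg K i S * f (insert i S) := rfl

lemma Cr_sq (i : ι) : Cr K i * Cr K i = 0 := by
  apply LinearMap.ext; intro f; funext S
  rw [Module.End.mul_apply, Cr_apply, Cr_apply]
  simp

lemma An_sq (i : ι) : An K i * An K i = 0 := by
  apply LinearMap.ext; intro f; funext S
  rw [Module.End.mul_apply, An_apply, An_apply]
  simp

lemma Cr_Cr (i j : ι) : Cr K i * Cr K j = -(Cr K j * Cr K i) := by
  by_cases hij : i = j
  · subst hij; rw [Cr_sq, neg_zero]
  apply LinearMap.ext; intro f; funext S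
  rw [LinearMap.neg_apply, Pi.neg_apply, Module.End.mul_apply, Module.End.mul_apply, Cr_apply,
    Cr_apply, Cr_apply, Cr_apply]
  by_cases hi : i ∈ S <;> by_cases hj : j ∈ S
  · have h1 : j ∈ S.erase i := Finset.mem_erase.mpr ⟨Ne.symm hij, hj⟩
    have h2 : i ∈ S.erase j := Finset.mem_erase.mpr ⟨hij, hi⟩
    rw [if_pos hi, if_pos hj, if_pos h1, if_pos h2, sg_erase hi, sg_erase hj,
      Finset.erase_right_comm]
    linear_combination (sg K i S * sg K j S * f ((S.erase j).erase i)) * ch_add (K := K) hij
  · have h1 : j ∉ S.erase i := fun h => hj (Finset.mem_of_mem_erase h)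
    rw [if_neg h1, if_neg hj]; simp
  · have h2 : i ∉ S.erase j := fun h => hi (Finset.mem_of_mem_erase h)
    rw [if_neg hi, if_neg h2]; simp
  · rw [if_neg hi, if_neg hj]; simp

lemma An_An (i j : ι) : An K i * An K j = -(An K j * An K i) := by
  by_cases hij : i = j
  · subst hij; rw [An_sq, neg_zero]
  apply LinearMap.ext; intro f; funext S
  rw [LinearMap.neg_apply, Pi.neg_apply, Module.End.mul_apply, Module.End.mul_apply, An_apply,
    An_apply, An_apply, An_apply]
  by_cases hi : i ∈ S <;> by_cases hj : j ∈ S
  · rw [if_pos hi, if_pos hj]; simp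
  · rw [if_pos hi, if_neg hj, if_pos (Finset.mem_insert_of_mem hi)]; simp
  · rw [if_neg hi, if_pos hj, if_pos (Finset.mem_insert_of_mem hj)]; simp
  · have h1 : j ∉ insert i S := by
      rw [Finset.mem_insert]; rintro (h | h)
      · exact hij h.symm
      · exact hj h
    have h2 : i ∉ insert j S := by
      rw [Finset.mem_insert]; rintro (h | h)
      · exact hij h
      · exact hi h
    rw [if_neg hi, if_neg hj, if_neg h1, if_neg h2, sg_insert hi, sg_insert hj,
      Finset.insert_comm]
    linear_combination (sg K i S * sg K j S * f (insert i (insert j S))) * ch_add (K := K) hij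

lemma An_Cr (i j : ι) : An K i * Cr K j = (if i = j then 1 else 0) - Cr K j * An K i := by
  apply LinearMap.ext; intro f; funext S
  rw [LinearMap.sub_apply, Pi.sub_apply, Module.End.mul_apply, Module.End.mul_apply, An_apply,
    Cr_apply, Cr_apply, An_apply]
  by_cases hij : i = j
  · subst hij
    rw [if_pos rfl, Module.End.one_apply]
    by_cases hi : i ∈ S
    · rw [if_pos hi, if_pos hi, if_neg (Finset.notMem_erase i S), sg_erase hi,
        Finset.insert_erase hi, ch_self]
      linear_combination (f S) * sg_sq (K := K) i S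
    · rw [if_neg hi, if_neg hi, if_pos (Finset.mem_insert_self i S), sg_insert hi,
        Finset.erase_insert hi, ch_self]
      linear_combination (f S) * sg_sq (K := K) i S
  · rw [if_neg hij, LinearMap.zero_apply, Pi.zero_apply]
    by_cases hi : i ∈ S <;> by_cases hj : j ∈ S
    · rw [if_pos hi, if_pos hj, if_pos (Finset.mem_erase.mpr ⟨hij, hi⟩)]; simp
    · rw [if_pos hi, if_neg hj]; simp
    · have h2 : i ∉ S.erase j := fun h => hi (Finset.mem_of_mem_erase h)
      rw [if_neg hi, if_pos hj, if_neg h2, if_pos (Finset.mem_insert_of_mem hj), sg_insert hi,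
        sg_erase hj, Finset.erase_insert_of_ne hij]
      linear_combination (sg K i S * sg K j S * f (insert i (S.erase j))) * ch_add (K := K) hij
    · have h1 : j ∉ insert i S := by
        rw [Finset.mem_insert]; rintro (h | h)
        · exact hij h.symm
        · exact hj h
      rw [if_neg hi, if_neg hj, if_neg h1]; simp

/-- The operators of the general linear Lie algebra. -/
def E (K : Type*) [Field K] (i j : ι) : Module.End K (Finset (ι) → K) :=
  Cr K i * An K j

lemma ring_EE {R : Type*} [Ring R] {ci ck aj al x : R} (h : aj * ck = x - ck * aj) :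
    ci * aj * (ck * al) = ci * x * al - ci * ck * (aj * al) := by
  have h1 : ci * aj * (ck * al) = ci * (aj * ck) * al := by noncomm_ring
  rw [h1, h]; noncomm_ring

lemma ring_swap {R : Type*} [Ring R] {ci ck aj al : R} (h1 : ck * ci = -(ci * ck))
    (h2 : al * aj = -(aj * al)) : ck * ci * (al * aj) = ci * ck * (aj * al) := by
  rw [h1, h2, neg_mul_neg]

lemma E_E (i j k l : ι) : E K i j * E K k l =
    (if j = k then E K i l else 0) - Cr K i * Cr K k * (An K j * An K l) := by
  unfold E
  rw [ring_EE (An_Cr j k)]
  split_ifs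
  · rw [mul_one]
  · rw [mul_zero, zero_mul]

lemma E_comm (i j k l : ι) : E K i j * E K k l - E K k l * E K i j =
    (if j = k then E K i l else 0) - (if l = i then E K k j else 0) := by
  have h : Cr K k * Cr K i * (An K l * An K j) = Cr K i * Cr K k * (An K j * An K l) :=
    ring_swap (Cr_Cr k i) (An_An l j)
  rw [E_E i j k l, E_E k l i j, h]
  abel

lemma E_diag_mul (i j : ι) : E K i i * E K i j = E K i j := by
  rw [E_E, if_pos rfl, Cr_sq]; simp

lemma E_mul_diag {i j : ι} (h : i ≠ j) : E K i j * E K i i = 0 := by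
  rw [E_E, if_neg (Ne.symm h), Cr_sq]; simp

lemma E_sq {i j : ι} (h : i ≠ j) : E K i j * E K i j = 0 := by
  rw [E_E, if_neg (Ne.symm h), Cr_sq]; simp

lemma E_apply (i j : ι) (f : Finset (ι) → K) (S : Finset (ι)) :
    E K i j f S = if i ∈ S ∧ j ∉ S.erase i then
      sg K i S * sg K j (S.erase i) * f (insert j (S.erase i)) else 0 := by
  unfold E
  rw [Module.End.mul_apply, Cr_apply, An_apply]
  by_cases hi : i ∈ S
  · by_cases hj : j ∈ S.erase i
    · rw [if_pos hi, if_pos hj, if_neg (fun h => h.2 hj), mul_zero]
    · rw [if_pos hi, if_neg hj, if_pos ⟨hi, hj⟩, mul_assoc]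
  · rw [if_neg hi, if_neg (fun h => hi h.1)]

end TR.W3
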