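import Pool.Agent.Helper21.MT.Gen

/-!
The normalizer of a linear space of matrices is Zariski closed.
-/

open Module MTPairs

namespace TR

variable {K : Type*} [Field K] {m : Type*} [Fintype m] [DecidableEq m]

/-- The normalizer of a linear space of matrices. -/
def Nor (g : Submodule K (Matrix m m K)) : Subgroup (Matrix.GeneralLinearGroup m K) where
  carrier := {x | ∀ X ∈ g, (x : Matrix m m K) * X *
      ((x⁻¹ : Matrix.GeneralLinearGroup m K) : Matrix m m K) ∈ g ∧
    ((x⁻¹ : Matrix.GeneralLinearGroup m K) : Matrix m m K) * X * (x : Matrix m m K) ∈ g}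
  one_mem' := by
    intro X hX
    simp only [inv_one, Units.val_one, one_mul, mul_one]
    exact ⟨hX, hX⟩
  mul_mem' := by
    intro x y hx hy X hX
    have e1 : ((x * y : Matrix.GeneralLinearGroup m K) : Matrix m m K) * X *
        (((x * y)⁻¹ : Matrix.GeneralLinearGroup m K) : Matrix m m K) =
        (x : Matrix m m K) * ((y : Matrix m m K) * X *
        ((y⁻¹ : Matrix.GeneralLinearGroup m K) : Matrix m m K)) *
        ((x⁻¹ : Matrix.GeneralLinearGroup m K) : Matrix m m K) := by
      rw [mul_inv_rev, Units.val_mul, Units.val_mul]; simp only [mul_assoc]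
    have e2 : (((x * y)⁻¹ : Matrix.GeneralLinearGroup m K) : Matrix m m K) * X *
        ((x * y : Matrix.GeneralLinearGroup m K) : Matrix m m K) =
        ((y⁻¹ : Matrix.GeneralLinearGroup m K) : Matrix m m K) *
        (((x⁻¹ : Matrix.GeneralLinearGroup m K) : Matrix m m K) * X * (x : Matrix m m K)) *
        (y : Matrix m m K) := by
      rw [mul_inv_rev, Units.val_mul, Units.val_mul]; simp only [mul_assoc]
    rw [e1, e2]
    exact ⟨(hx _ (hy X hX).1).1, (hy _ (hx X hX).2).2⟩
  inv_mem' := by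
    intro x hx X hX
    rw [inv_inv]
    exact ⟨(hx X hX).2, (hx X hX).1⟩

lemma adj_eq (x : Matrix.GeneralLinearGroup m K) : (x : Matrix m m K).adjugate =
    (x : Matrix m m K).det • ((x⁻¹ : Matrix.GeneralLinearGroup m K) : Matrix m m K) := by
  have h1 : (x : Matrix m m K) * ((x⁻¹ : Matrix.GeneralLinearGroup m K) : Matrix m m K) = 1 :=
    Units.mul_inv x
  calc (x : Matrix m m K).adjugate = (x : Matrix m m K).adjugate * ((x : Matrix m m K) *
        ((x⁻¹ : Matrix.GeneralLinearGroup m K) : Matrix m m K)) := by rw [h1, mul_one]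
    _ = _ := by rw [← mul_assoc, Matrix.adjugate_mul, smul_mul_assoc, one_mul]

lemma mem_of_dual {V : Type*} [AddCommGroup V] [Module K V] {g : Submodule K V} {x : V}
    (h : ∀ l : Dual K V, (∀ y ∈ g, l y = 0) → l x = 0) : x ∈ g := by
  by_contra hx
  obtain ⟨l, hl, hl2⟩ := Submodule.exists_le_ker_of_notMem hx
  exact hl (h l (fun y hy => hl2 hy))

lemma Nor_closed (g : Submodule K (Matrix m m K)) : ZariskiClosed (Nor g) := by
  let G : Matrix m m (MvPolynomial (m × m) K) := Matrix.of fun i j => MvPolynomial.X (i, j)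
  let Q : Dual K (Matrix m m K) → Matrix m m (MvPolynomial (m × m) K) →
      MvPolynomial (m × m) K := fun l Y => ∑ a, ∑ b, MvPolynomial.C (l (Matrix.single a b 1)) * Y a b
  refine ⟨{p | ∃ X ∈ g, ∃ l : Dual K (Matrix m m K), (∀ Y ∈ g, l Y = 0) ∧
    (p = Q l (G * X.map MvPolynomial.C * G.adjugate) ∨
      p = Q l (G.adjugate * X.map MvPolynomial.C * G))}, fun x => ?_⟩
  set φ : MvPolynomial (m × m) K →+* K :=
    MvPolynomial.eval (fun ij : m × m => (x : Matrix m m K) ij.1 ij.2) with hφ
  have hG : φ.mapMatrix G = (x : Matrix m m K) := by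
    ext i j
    simp [G, hφ]
  have hX : ∀ X : Matrix m m K, φ.mapMatrix (X.map MvPolynomial.C) = X := by
    intro X
    ext i j
    simp [hφ]
  have hQ : ∀ l Y, φ (Q l Y) = l (φ.mapMatrix Y) := by
    intro l Y
    have e : φ.mapMatrix Y = ∑ a, ∑ b, φ (Y a b) • Matrix.single a b (1 : K) := by
      conv_lhs => rw [Matrix.matrix_eq_sum_single (φ.mapMatrix Y)]
      apply Finset.sum_congr rfl; intro a _
      apply Finset.sum_congr rfl; intro b _
      rw [Matrix.smul_single, smul_eq_mul, mul_one]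
      rfl
    rw [e]
    simp only [Q, map_sum, map_mul, map_smul, smul_eq_mul]
    apply Finset.sum_congr rfl; intro a _
    apply Finset.sum_congr rfl; intro b _
    rw [hφ, MvPolynomial.eval_C, mul_comm]
  have hA : φ.mapMatrix G.adjugate = (x : Matrix m m K).adjugate := by
    rw [RingHom.map_adjugate, hG]
  have hd : (x : Matrix m m K).det ≠ 0 :=
    ((Matrix.isUnit_iff_isUnit_det _).mp x.isUnit).ne_zero
  have h1 : ∀ l X, φ (Q l (G * X.map MvPolynomial.C * G.adjugate)) =
      (x : Matrix m m K).det * l ((x : Matrix m m K) * X *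
        ((x⁻¹ : Matrix.GeneralLinearGroup m K) : Matrix m m K)) := by
    intro l X
    rw [hQ, map_mul φ.mapMatrix, map_mul φ.mapMatrix, hG, hX, hA, adj_eq, mul_smul_comm, map_smul,
      smul_eq_mul]
  have h2 : ∀ l X, φ (Q l (G.adjugate * X.map MvPolynomial.C * G)) =
      (x : Matrix m m K).det * l (((x⁻¹ : Matrix.GeneralLinearGroup m K) : Matrix m m K) * X *
        (x : Matrix m m K)) := by
    intro l X
    rw [hQ, map_mul φ.mapMatrix, map_mul φ.mapMatrix, hG, hX, hA, adj_eq, smul_mul_assoc,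
      smul_mul_assoc, map_smul, smul_eq_mul]
  constructor
  · rintro hx p ⟨X, hXg, l, hl, rfl | rfl⟩
    · rw [h1, hl _ (hx X hXg).1, mul_zero]
    · rw [h2, hl _ (hx X hXg).2, mul_zero]
  · intro h X hXg
    constructor
    · apply mem_of_dual
      intro l hl
      have := h _ ⟨X, hXg, l, hl, Or.inl rfl⟩
      rw [h1] at this
      exact (mul_eq_zero.mp this).resolve_left hd
    · apply mem_of_dual
      intro l hl
      have := h _ ⟨X, hXg, l, hl, Or.inr rfl⟩
      rw [h2] at this
      exact (mul_eq_zero.mp this).resolve_left hd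

lemma conj_eq [CharZero K] {π X : Matrix m m K} (hπ : π * π = π) {t : K} (ht : t ≠ 0) :
    (t • π + (1 - π)) * X * (t⁻¹ • π + (1 - π)) = X + ((t - t⁻¹) / 2) • (π * X - X * π) +
      ((t + t⁻¹ - 2) / 2) • (π * (π * X - X * π) - (π * X - X * π) * π) := by
  have h1 : π * (π * X) = π * X := by rw [← mul_assoc, hπ]
  have h2 : X * π * π = X * π := by rw [mul_assoc, hπ]
  simp only [add_mul, mul_add, sub_mul, mul_sub, smul_mul_assoc, mul_smul_comm, one_mul, mul_one,
    h1, h2, smul_smul, mul_assoc, smul_add, smul_sub]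
  match_scalars <;> field_simp <;> ring

/-- Idempotents which normalize infinitesimally. -/
lemma Nor_cochar [CharZero K] {g : Submodule K (Matrix m m K)} {π : Matrix m m K}
    (hπ : π * π = π) (h : ∀ X ∈ g, π * X - X * π ∈ g) : IsCochar (Nor g) π := by
  refine ⟨hπ, fun t ht => ?_⟩
  refine ⟨⟨t • π + (1 - π), t⁻¹ • π + (1 - π), torus_mul hπ ht, ?_⟩, ?_, rfl⟩
  · have := torus_mul hπ (inv_ne_zero ht)
    rwa [inv_inv] at this
  · have key : ∀ s : K, s ≠ 0 → ∀ X ∈ g, (s • π + (1 - π)) * X * (s⁻¹ • π + (1 - π)) ∈ g := by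
      intro s hs X hX
      rw [conj_eq hπ hs]
      exact g.add_mem (g.add_mem hX (g.smul_mem _ (h X hX))) (g.smul_mem _ (h _ (h X hX)))
    intro X hX
    refine ⟨key t ht X hX, ?_⟩
    have := key t⁻¹ (inv_ne_zero ht) X hX
    rwa [inv_inv] at this

end TR
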