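import Pool.Agent.Helper4.TR.Car
import Pool.Agent.Helper4.TR.Nor

/-!
The exterior power of the standard representation of the general linear group in matrix form.
-/

open Module MTPairs

namespace TR.W3

section restrict
variable {K : Type*} [Field K] {ι : Type*} [LinearOrder ι] {k : ℕ}

/-- The subsets of size `k`. -/
abbrev Ix (ι : Type*) (k : ℕ) : Type _ := {S : Finset ι // S.card = k}

/-- Extension by zero. -/
def inc (K : Type*) [Field K] (ι : Type*) (k : ℕ) : (Ix ι k → K) →ₗ[K] (Finset ι → K) where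
  toFun f S := if h : S.card = k then f ⟨S, h⟩ else 0
  map_add' f g := by
    ext S; simp only [Pi.add_apply]; split_ifs <;> simp
  map_smul' c f := by
    ext S; simp only [Pi.smul_apply, smul_eq_mul, RingHom.id_apply]; split_ifs <;> simp

/-- Restriction. -/
def res (K : Type*) [Field K] (ι : Type*) (k : ℕ) : (Finset ι → K) →ₗ[K] (Ix ι k → K) where
  toFun f S := f S.1
  map_add' _ _ := rfl
  map_smul' _ _ := rfl

/-- Operators which preserve functions supported on subsets of size `k`. -/
def Deg (k : ℕ) (A : Module.End K (Finset ι → K)) : Prop :=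
  ∀ f : Finset ι → K, (∀ S, S.card ≠ k → f S = 0) → ∀ S, S.card ≠ k → A f S = 0

/-- Restriction of an operator. -/
def rho (k : ℕ) (A : Module.End K (Finset ι → K)) : Module.End K (Ix ι k → K) :=
  res K ι k ∘ₗ A ∘ₗ inc K ι k

omit [LinearOrder ι] in
lemma inc_res {f : Finset ι → K} (hf : ∀ S, S.card ≠ k → f S = 0) :
    inc K ι k (res K ι k f) = f := by
  funext S
  by_cases h : S.card = k
  · change (if h : S.card = k then (res K ι k f) ⟨S, h⟩ else 0) = f S
    rw [dif_pos h]; rfl
  · change (if h : S.card = k then (res K ι k f) ⟨S, h⟩ else 0) = f S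
    rw [dif_neg h, hf S h]

omit [LinearOrder ι] in
lemma inc_supp (f : Ix ι k → K) (S : Finset ι) (h : S.card ≠ k) : inc K ι k f S = 0 := by
  change (if h : S.card = k then f ⟨S, h⟩ else 0) = 0
  rw [dif_neg h]

omit [LinearOrder ι] in
lemma rho_mul (A : Module.End K (Finset ι → K)) {B : Module.End K (Finset ι → K)}
    (hB : Deg k B) : rho k (A * B) = rho k A * rho k B := by
  apply LinearMap.ext; intro f
  change res K ι k (A (B (inc K ι k f))) = res K ι k (A (inc K ι k (res K ι k
    (B (inc K ι k f)))))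
  rw [inc_res (hB _ (fun S h => inc_supp f S h))]

lemma E_deg (i j : ι) : Deg k (E K i j) := by
  intro f hf S hS
  rw [E_apply]
  split_ifs with h
  · rw [hf, mul_zero]
    rw [Finset.card_insert_of_notMem h.2, Finset.card_erase_add_one h.1]
    exact hS
  · rfl

variable [Fintype ι]

/-- The matrices of the operators. -/
noncomputable def M (K : Type*) [Field K] (k : ℕ) (i j : ι) : Matrix (Ix ι k) (Ix ι k) K :=
  LinearMap.toMatrix' (rho k (E K i j))

lemma M_apply (i j : ι) (S T : Ix ι k) : M K k i j S T =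
    if i ∈ S.1 ∧ j ∉ S.1.erase i ∧ T.1 = insert j (S.1.erase i) then
      sg K i S.1 * sg K j (S.1.erase i) else 0 := by
  rw [M, LinearMap.toMatrix'_apply]
  change E K i j (inc K ι k (Pi.single T 1)) S.1 = _
  rw [E_apply]
  by_cases h1 : i ∈ S.1 ∧ j ∉ S.1.erase i
  · have hc : (insert j (S.1.erase i)).card = k := by
      rw [Finset.card_insert_of_notMem h1.2, Finset.card_erase_add_one h1.1]
      exact S.2
    have e : inc K ι k (Pi.single T 1) (insert j (S.1.erase i)) =
        if (⟨insert j (S.1.erase i), hc⟩ : Ix ι k) = T then 1 else 0 := by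
      change (if h : (insert j (S.1.erase i)).card = k then
        (Pi.single T 1 : Ix ι k → K) ⟨_, h⟩ else 0) = _
      rw [dif_pos hc, Pi.single_apply]
    rw [if_pos h1, e]
    by_cases h2 : T.1 = insert j (S.1.erase i)
    · rw [if_pos (Subtype.ext h2.symm), mul_one, if_pos ⟨h1.1, h1.2, h2⟩]
    · rw [if_neg (fun h => h2 (congrArg Subtype.val h).symm), mul_zero,
        if_neg (fun h => h2 h.2.2)]
  · rw [if_neg h1, if_neg (fun h => h1 ⟨h.1, h.2.1⟩)]

lemma toM_mul (A : Module.End K (Finset ι → K)) {B : Module.End K (Finset ι → K)}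
    (hB : Deg k B) : LinearMap.toMatrix' (rho k A) * LinearMap.toMatrix' (rho k B) =
      LinearMap.toMatrix' (rho k (A * B)) := by
  rw [rho_mul A hB]
  exact (LinearMap.toMatrix'_mul _ _).symm

omit [LinearOrder ι] [Fintype ι] in
lemma rho_sub (A B : Module.End K (Finset ι → K)) : rho k (A - B) = rho k A - rho k B := by
  apply LinearMap.ext; intro f
  change res K ι k ((A - B) (inc K ι k f)) = res K ι k (A (inc K ι k f)) -
    res K ι k (B (inc K ι k f))
  rw [LinearMap.sub_apply, map_sub]

omit [LinearOrder ι] [Fintype ι] in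
lemma rho_zero : rho k (0 : Module.End K (Finset ι → K)) = 0 := by
  apply LinearMap.ext; intro f
  change res K ι k ((0 : Module.End K (Finset ι → K)) (inc K ι k f)) = 0
  rw [LinearMap.zero_apply, map_zero]

lemma M_comm (i j p q : ι) : M K k i j * M K k p q - M K k p q * M K k i j =
    (if j = p then M K k i q else 0) - (if q = i then M K k p j else 0) := by
  unfold M
  rw [toM_mul _ (E_deg _ _), toM_mul _ (E_deg _ _), ← map_sub, ← rho_sub, E_comm, rho_sub,
    map_sub]
  congr 1
  · split_ifs
    · rfl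
    · rw [rho_zero, map_zero]
  · split_ifs
    · rfl
    · rw [rho_zero, map_zero]

lemma M_diag_mul (i j : ι) : M K k i i * M K k i j = M K k i j := by
  unfold M
  rw [toM_mul _ (E_deg _ _), E_diag_mul]

lemma M_mul_diag {i j : ι} (h : i ≠ j) : M K k i j * M K k i i = 0 := by
  unfold M
  rw [toM_mul _ (E_deg _ _), E_mul_diag h, rho_zero, map_zero]

lemma M_sq {i j : ι} (h : i ≠ j) : M K k i j * M K k i j = 0 := by
  unfold M
  rw [toM_mul _ (E_deg _ _), E_sq h, rho_zero, map_zero]

lemma M_same (i : ι) : M K k i i = Matrix.diagonal (fun S : Ix ι k => if i ∈ S.1 then 1 else 0) := by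
  ext S T
  rw [M_apply, Matrix.diagonal_apply]
  by_cases hi : i ∈ S.1
  · rw [Finset.insert_erase hi]
    by_cases hST : S = T
    · subst hST
      rw [if_pos ⟨hi, Finset.notMem_erase _ _, rfl⟩, if_pos rfl, if_pos hi, sg_erase hi, ch_self,
        one_mul, sg_sq]
    · rw [if_neg (fun h => hST (Subtype.ext h.2.2.symm)), if_neg hST]
  · rw [if_neg (fun h => hi h.1), if_neg hi]
    simp

/-- The linear span of the operators. -/
noncomputable def gl (K : Type*) [Field K] (ι : Type*) [LinearOrder ι] [Fintype ι] (k : ℕ) :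
    Submodule K (Matrix (Ix ι k) (Ix ι k) K) :=
  Submodule.span K (Set.range fun p : ι × ι => M K k p.1 p.2)

lemma M_mem (i j : ι) : M K k i j ∈ gl K ι k := Submodule.subset_span ⟨(i, j), rfl⟩

lemma M_br (i j : ι) {X : Matrix (Ix ι k) (Ix ι k) K} (hX : X ∈ gl K ι k) :
    M K k i j * X - X * M K k i j ∈ gl K ι k := by
  unfold gl at hX
  induction hX using Submodule.span_induction with
  | mem x hx =>
    obtain ⟨⟨p, q⟩, rfl⟩ := hx
    change M K k i j * M K k p q - M K k p q * M K k i j ∈ gl K ι k
    rw [M_comm]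
    apply Submodule.sub_mem
    · split_ifs
      · exact M_mem _ _
      · exact Submodule.zero_mem _
    · split_ifs
      · exact M_mem _ _
      · exact Submodule.zero_mem _
  | zero => simp
  | add x y _ _ hx hy =>
    have e : M K k i j * (x + y) - (x + y) * M K k i j =
        (M K k i j * x - x * M K k i j) + (M K k i j * y - y * M K k i j) := by noncomm_ring
    rw [e]; exact Submodule.add_mem _ hx hy
  | smul c x _ hx =>
    rw [mul_smul_comm, smul_mul_assoc, ← smul_sub]
    exact Submodule.smul_mem _ _ hx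

/-- The idempotents. -/
def Lam (K : Type*) [Field K] (ι : Type*) [LinearOrder ι] [Fintype ι] (k : ℕ) :
    Set (Matrix (Ix ι k) (Ix ι k) K) :=
  {π | (∃ i, π = M K k i i) ∨ ∃ i j, i ≠ j ∧ π = M K k i i + M K k i j}

lemma Lam_idem : ∀ π ∈ Lam K ι k, π * π = π := by
  rintro π (⟨i, rfl⟩ | ⟨i, j, hij, rfl⟩)
  · exact M_diag_mul i i
  · rw [add_mul, mul_add, mul_add, M_diag_mul, M_diag_mul, M_mul_diag hij, M_sq hij]
    simp

lemma Lam_nor [CharZero K] : ∀ π ∈ Lam K ι k, IsCochar (Nor (gl K ι k)) π := by
  intro π hπ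
  apply Nor_cochar (Lam_idem π hπ)
  rcases hπ with ⟨i, rfl⟩ | ⟨i, j, hij, rfl⟩
  · intro X hX; exact M_br i i hX
  · intro X hX
    have e : (M K k i i + M K k i j) * X - X * (M K k i i + M K k i j) =
        (M K k i i * X - X * M K k i i) + (M K k i j * X - X * M K k i j) := by noncomm_ring
    rw [e]
    exact Submodule.add_mem _ (M_br i i hX) (M_br i j hX)

/-- Entries of elements of the span. -/
lemma gl_entry {S T : Ix ι k} (h : ∀ i j, T.1 ≠ insert j (S.1.erase i))
    {X : Matrix (Ix ι k) (Ix ι k) K} (hX : X ∈ gl K ι k) : X S T = 0 := by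
  unfold gl at hX
  induction hX using Submodule.span_induction with
  | mem x hx =>
    obtain ⟨⟨p, q⟩, rfl⟩ := hx
    change M K k p q S T = 0
    rw [M_apply, if_neg (fun h' => h p q h'.2.2)]
  | zero => rfl
  | add x y _ _ hx hy => rw [Matrix.add_apply, hx, hy, add_zero]
  | smul c x _ hx => rw [Matrix.smul_apply, hx, smul_zero]

end restrict

end TR.W3
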