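import Pool.Agent.Helper4.TR.Wd
import Pool.Agent.Helper21.MT.Sharp

/-!
The symplectic form on the middle exterior power, and irreducibility.
-/

open Module MTPairs

namespace TR.W3

section form
variable {K : Type*} [Field K] {m : ℕ}

/-- The complement of a subset of half size. -/
def cp (S : Ix (Fin (2 * m)) m) : Ix (Fin (2 * m)) m :=
  ⟨S.1ᶜ, by rw [Finset.card_compl, Fintype.card_fin, S.2]; omega⟩

lemma cp_cp (S : Ix (Fin (2 * m)) m) : cp (cp S) = S := Subtype.ext (compl_compl S.1)

lemma cp_eq {S T : Ix (Fin (2 * m)) m} : T = cp S ↔ S = cp T := by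
  constructor
  · rintro rfl; rw [cp_cp]
  · rintro rfl; rw [cp_cp]

/-- The sign of a subset. -/
def ep (K : Type*) [Field K] {n : ℕ} (S : Finset (Fin n)) : K := ∏ s ∈ S, (-1) ^ (s : ℕ)

lemma ep_sq {n : ℕ} (S : Finset (Fin n)) : ep K S * ep K S = 1 := by
  unfold ep
  rw [← Finset.prod_mul_distrib]
  refine Finset.prod_eq_one fun s _ => ?_
  rw [← mul_pow]; norm_num

lemma ep_insert {n : ℕ} {i : Fin n} {S : Finset (Fin n)} (h : i ∉ S) :
    ep K (insert i S) = (-1) ^ (i : ℕ) * ep K S := by
  unfold ep; rw [Finset.prod_insert h]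

lemma ep_erase {n : ℕ} {i : Fin n} {S : Finset (Fin n)} (h : i ∈ S) :
    ep K (S.erase i) = (-1) ^ (i : ℕ) * ep K S := by
  have h1 := ep_insert (K := K) (Finset.notMem_erase i S)
  rw [Finset.insert_erase h] at h1
  rw [h1, ← mul_assoc, ← mul_pow]; norm_num

lemma prod_sign : ∏ s : Fin (2 * m), (-1 : K) ^ (s : ℕ) = (-1) ^ m := by
  rw [Fin.prod_univ_eq_prod_range (fun s => (-1 : K) ^ s) (2 * m)]
  induction m with
  | zero => simp
  | succ k ih =>
    rw [show 2 * (k + 1) = 2 * k + 1 + 1 by ring, Finset.prod_range_succ, Finset.prod_range_succ,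
      ih, pow_succ (-1 : K) (2 * k), pow_mul]
    norm_num [pow_succ]

lemma ep_compl (hm : Odd m) (S : Finset (Fin (2 * m))) : ep K S * ep K Sᶜ = -1 := by
  unfold ep
  rw [Finset.prod_mul_prod_compl, prod_sign, hm.neg_one_pow]

lemma sg_compl {n : ℕ} (i : Fin n) (S : Finset (Fin n)) :
    sg K i S * sg K i Sᶜ = (-1) ^ (i : ℕ) := by
  unfold sg ch
  rw [Finset.prod_mul_prod_compl, Finset.prod_ite, Finset.prod_const, Finset.prod_const_one,
    mul_one]
  congr 1
  have : Finset.univ.filter (fun s : Fin n => s < i) = Finset.Iio i := by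
    ext s; simp
  rw [this, Fin.card_Iio]

lemma sg_compl' {n : ℕ} (i : Fin n) (S : Finset (Fin n)) :
    sg K i Sᶜ = (-1) ^ (i : ℕ) * sg K i S := by
  rw [← sg_compl i S]
  linear_combination (- sg K i Sᶜ) * sg_sq (K := K) i S

/-- The Gram matrix. -/
def Jw (K : Type*) [Field K] (m : ℕ) : Matrix (Ix (Fin (2 * m)) m) (Ix (Fin (2 * m)) m) K :=
  fun S T => if T = cp S then ep K S.1 else 0

lemma Jw_mul (X : Matrix (Ix (Fin (2 * m)) m) (Ix (Fin (2 * m)) m) K) (S T) :
    (Jw K m * X) S T = ep K S.1 * X (cp S) T := by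
  rw [Matrix.mul_apply]
  simp [Jw]

lemma mul_Jw (X : Matrix (Ix (Fin (2 * m)) m) (Ix (Fin (2 * m)) m) K) (S T) :
    (X * Jw K m) S T = X S (cp T) * ep K (cp T).1 := by
  rw [Matrix.mul_apply]
  have : ∀ R, (Jw K m) R T = if R = cp T then ep K (cp T).1 else 0 := by
    intro R
    simp only [Jw]
    by_cases h : T = cp R
    · rw [if_pos h, if_pos (cp_eq.mp h), cp_eq.mp h]
    · rw [if_neg h, if_neg (fun h' => h (cp_eq.mpr h'))]
  simp [this]

lemma Jw_sq (hm : Odd m) : Jw K m * Jw K m = -1 := by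
  ext S T
  rw [Jw_mul, Jw, cp_cp, Matrix.neg_apply, Matrix.one_apply]
  by_cases h : S = T
  · subst h
    rw [if_pos rfl, if_pos rfl]
    exact ep_compl hm S.1
  · rw [if_neg (Ne.symm h), if_neg h]; simp

lemma Jw_transpose (hm : Odd m) : (Jw K m).transpose = - Jw K m := by
  ext S T
  rw [Matrix.transpose_apply, Matrix.neg_apply, Jw, Jw]
  by_cases h : T = cp S
  · rw [if_pos h, if_pos (cp_eq.mp h), h]
    have h1 := ep_compl (K := K) hm S.1
    have h2 := ep_sq (K := K) S.1
    change ep K (S.1)ᶜ = - ep K S.1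
    linear_combination (ep K S.1) * h1 - (ep K (S.1)ᶜ) * h2
  · rw [if_neg h, if_neg (fun h' => h (cp_eq.mpr h'))]; simp

lemma Jw_det (hm : Odd m) : (Jw K m).det ≠ 0 := by
  have h : Jw K m * (-Jw K m) = 1 := by rw [mul_neg, Jw_sq hm, neg_neg]
  intro h0
  have := congrArg Matrix.det h
  rw [Matrix.det_mul, h0, zero_mul, Matrix.det_one] at this
  exact zero_ne_one this

lemma M_skew_same (i : Fin (2 * m)) :
    (M K m i i).transpose * Jw K m + Jw K m * M K m i i = Jw K m := by
  ext S T
  rw [Matrix.add_apply, mul_Jw, Jw_mul, M_same, Matrix.transpose_apply, Matrix.diagonal_apply,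
    Matrix.diagonal_apply, Jw]
  by_cases h : T = cp S
  · subst h
    rw [cp_cp, if_pos rfl, if_pos rfl, if_pos rfl]
    by_cases hi : i ∈ S.1
    · have : i ∉ (cp S).1 := by
        change i ∉ (S.1)ᶜ; simpa using hi
      rw [if_pos hi, if_neg this]; ring
    · have : i ∈ (cp S).1 := by
        change i ∈ (S.1)ᶜ; simpa using hi
      rw [if_neg hi, if_pos this]; ring
  · have h1 : cp T ≠ S := fun h' => h (cp_eq.mpr h'.symm)
    rw [if_neg h1, if_neg (Ne.symm h), if_neg h]; simp

lemma cond_symm {i j : Fin (2 * m)} (hij : i ≠ j) {S T : Ix (Fin (2 * m)) m}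
    (h : i ∈ (cp T).1 ∧ j ∉ (cp T).1.erase i ∧ S.1 = insert j ((cp T).1.erase i)) :
    i ∈ (cp S).1 ∧ j ∉ (cp S).1.erase i ∧ T.1 = insert j ((cp S).1.erase i) := by
  obtain ⟨h1, h2, h3⟩ := h
  change i ∈ (T.1)ᶜ at h1
  change j ∉ (T.1)ᶜ.erase i at h2
  change S.1 = insert j ((T.1)ᶜ.erase i) at h3
  have h1' : i ∉ T.1 := by simpa using h1
  have h2' : j ∈ T.1 := by
    by_contra hc
    exact h2 (Finset.mem_erase.mpr ⟨hij.symm, by simpa using hc⟩)
  refine ⟨?_, ?_, ?_⟩
  · change i ∈ (S.1)ᶜ
    rw [h3]; simp [hij]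
  · change j ∉ (S.1)ᶜ.erase i
    rw [h3]; simp
  · change T.1 = insert j ((S.1)ᶜ.erase i)
    rw [h3]
    ext x
    simp only [Finset.mem_insert, Finset.mem_erase, Finset.mem_compl]
    by_cases hx : x = j
    · subst hx; simp [h2']
    · by_cases hxi : x = i
      · subst hxi; simp [h1', hij]
      · simp [hx, hxi]

lemma M_skew {i j : Fin (2 * m)} (hij : i ≠ j) :
    (M K m i j).transpose * Jw K m + Jw K m * M K m i j = 0 := by
  ext S T
  rw [Matrix.add_apply, mul_Jw, Jw_mul, Matrix.transpose_apply, M_apply, M_apply,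
    Matrix.zero_apply]
  by_cases h : i ∈ (cp T).1 ∧ j ∉ (cp T).1.erase i ∧ S.1 = insert j ((cp T).1.erase i)
  · have h' := cond_symm hij h
    rw [if_pos h, if_pos h']
    obtain ⟨h1, h2, h3⟩ := h
    obtain ⟨h1', h2', h3'⟩ := h'
    set A := (cp T).1 with hA
    have e1 : (cp S).1 = (S.1)ᶜ := rfl
    have hjA : j ∉ A := fun hc => h2 (Finset.mem_erase.mpr ⟨hij.symm, hc⟩)
    have e2 : (S.1)ᶜ = insert i (Aᶜ.erase j) := by
      rw [h3]
      ext x
      simp only [Finset.mem_insert, Finset.mem_erase, Finset.mem_compl]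
      by_cases hx : x = j
      · subst hx; simp [hij.symm]
      · by_cases hxi : x = i
        · subst hxi; simp [hij]
        · simp [hx, hxi]
    have hi2 : i ∉ Aᶜ.erase j := by
      intro hc; simp at hc; exact hc.2 h1
    have hj2 : j ∈ Aᶜ := by simpa using hjA
    rw [e1, e2, Finset.erase_insert hi2, sg_insert hi2, sg_erase (i := i) hj2,
      sg_erase (i := j) hj2, sg_erase h1, ch_self, ch_self, h3, ep_insert h2, ep_erase h1,
      sg_compl', sg_compl']
    have p1 : ((-1 : K) ^ (i : ℕ)) * (-1) ^ (i : ℕ) = 1 := by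
      rw [← mul_pow]; norm_num
    have p2 : ((-1 : K) ^ (j : ℕ)) * (-1) ^ (j : ℕ) = 1 := by
      rw [← mul_pow]; norm_num
    generalize (-1 : K) ^ (i : ℕ) = a at *
    generalize (-1 : K) ^ (j : ℕ) = b at *
    linear_combination (sg K i A * sg K j A * ep K A) * ch_add (K := K) hij +
      (sg K i A * sg K j A * ep K A * ch K j i) * (b * b * p1 + p2)
  · have h' : ¬ (i ∈ (cp S).1 ∧ j ∉ (cp S).1.erase i ∧ T.1 = insert j ((cp S).1.erase i)) :=
      fun h' => h (cond_symm hij h')
    rw [if_neg h, if_neg h']; simp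

lemma Lam_lag : ∀ π ∈ Lam K (Fin (2 * m)) m, π.transpose * Jw K m + Jw K m * π = Jw K m := by
  rintro π (⟨i, rfl⟩ | ⟨i, j, hij, rfl⟩)
  · exact M_skew_same i
  · rw [Matrix.transpose_add, add_mul, mul_add]
    calc _ = ((M K m i i).transpose * Jw K m + Jw K m * M K m i i) +
          ((M K m i j).transpose * Jw K m + Jw K m * M K m i j) := by abel
      _ = _ := by rw [M_skew_same, M_skew hij, add_zero]

end form

section irr
variable {K : Type*} [Field K] {ι : Type*} [LinearOrder ι] [Fintype ι] {k : ℕ}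
  {U : Submodule K (Ix ι k → K)}

lemma irr_diag (hU : ∀ π ∈ Lam K ι k, Pres U π) (S : Ix ι k) :
    Pres U (Matrix.single S S (1 : K)) := by
  have hone : Pres U 1 := by intro v hv; rwa [Matrix.one_mulVec]
  have key : ∀ A : Finset ι, Pres U (Matrix.diagonal (fun T : Ix ι k =>
      if ∀ i ∈ A, (i ∈ T.1 ↔ i ∈ S.1) then (1 : K) else 0)) := by
    intro A
    induction A using Finset.induction_on with
    | empty => simpa using hone
    | insert a A ha ih =>
      have h1 : Pres U (M K k a a) := hU _ (Or.inl ⟨a, rfl⟩)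
      have h2 : Pres U (if a ∈ S.1 then M K k a a else 1 - M K k a a) := by
        split_ifs
        · exact h1
        · exact hone.sub h1
      have h3 := h2.mul ih
      have e : (if a ∈ S.1 then M K k a a else 1 - M K k a a) * Matrix.diagonal (fun T : Ix ι k =>
          if ∀ i ∈ A, (i ∈ T.1 ↔ i ∈ S.1) then (1 : K) else 0) = Matrix.diagonal
          (fun T : Ix ι k => if ∀ i ∈ insert a A, (i ∈ T.1 ↔ i ∈ S.1) then (1 : K) else 0) := by
        rw [M_same]
        have e1 : (1 : Matrix (Ix ι k) (Ix ι k) K) = Matrix.diagonal (fun _ => 1) :=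
          Matrix.diagonal_one.symm
        rw [e1, Matrix.diagonal_sub]
        split_ifs with haS
        · rw [Matrix.diagonal_mul_diagonal]
          congr 1; funext T
          simp only [Finset.forall_mem_insert, haS, iff_true]
          by_cases haT : a ∈ T.1 <;> simp [haT]
        · rw [Matrix.diagonal_mul_diagonal]
          congr 1; funext T
          simp only [Finset.forall_mem_insert, haS, iff_false]
          by_cases haT : a ∈ T.1 <;> simp [haT]
      rw [e] at h3
      exact h3
  have h := key Finset.univ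
  have e : Matrix.diagonal (fun T : Ix ι k =>
      if ∀ i ∈ Finset.univ, (i ∈ T.1 ↔ i ∈ S.1) then (1 : K) else 0) = Matrix.single S S 1 := by
    ext T T'
    rw [Matrix.diagonal_apply, Matrix.single_apply]
    by_cases hT : T = T'
    · subst hT
      rw [if_pos rfl]
      by_cases hTS : S = T
      · subst hTS; simp
      · have : ¬ ∀ i ∈ Finset.univ, (i ∈ T.1 ↔ i ∈ S.1) := by
          intro hc
          apply hTS
          apply Subtype.ext
          ext i; exact (hc i (Finset.mem_univ i)).symm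
        rw [if_neg this, if_neg (fun h => hTS h.1)]
    · rw [if_neg hT, if_neg]
      rintro ⟨rfl, rfl⟩; exact hT rfl
  rwa [e] at h

omit [Fintype ι] in
lemma sg_ne (i : ι) (S : Finset ι) : sg K i S ≠ 0 := by
  intro h
  have := sg_sq (K := K) i S
  rw [h, mul_zero] at this
  exact zero_ne_one this

lemma irr_step (hU : ∀ π ∈ Lam K ι k, Pres U π) {S T : Ix ι k} {i j : ι} (hi : i ∈ S.1)
    (hj : j ∉ S.1) (hT : T.1 = insert j (S.1.erase i)) : Pres U (Matrix.single S T (1 : K)) := by
  have hij : i ≠ j := fun h => hj (h ▸ hi)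
  have h1 : Pres U (M K k i i) := hU _ (Or.inl ⟨i, rfl⟩)
  have h2 : Pres U (M K k i j) := by
    have h := (hU _ (Or.inr ⟨i, j, hij, rfl⟩)).sub h1
    rwa [add_sub_cancel_left] at h
  have h3 := (irr_diag hU S).mul h2
  have hc : sg K i S.1 * sg K j (S.1.erase i) ≠ 0 := mul_ne_zero (sg_ne _ _) (sg_ne _ _)
  have e : Matrix.single S S (1 : K) * M K k i j =
      (sg K i S.1 * sg K j (S.1.erase i)) • Matrix.single S T (1 : K) := by
    ext X Y
    rw [Matrix.smul_apply, Matrix.single_apply]
    by_cases hX : S = X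
    · subst hX
      rw [Matrix.single_mul_apply_same, one_mul, M_apply]
      by_cases hY : T = Y
      · subst hY
        rw [if_pos ⟨hi, fun h => hj (Finset.mem_of_mem_erase h), hT⟩, if_pos ⟨rfl, rfl⟩]
        simp
      · rw [if_neg, if_neg (fun h => hY h.2)]
        · simp
        · rintro ⟨-, -, h⟩
          exact hY (Subtype.ext (hT.trans h.symm))
    · rw [Matrix.single_mul_apply_of_ne _ _ _ _ _ (Ne.symm hX), if_neg (fun h => hX h.1)]
      simp
  rw [e] at h3
  intro v hv
  have h4 := h3 v hv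
  rw [Matrix.smul_mulVec] at h4
  have h5 := U.smul_mem (sg K i S.1 * sg K j (S.1.erase i))⁻¹ h4
  rwa [smul_smul, inv_mul_cancel₀ hc, one_smul] at h5

lemma irr_single (hU : ∀ π ∈ Lam K ι k, Pres U π) : ∀ (n : ℕ) (S T : Ix ι k),
    (T.1 \ S.1).card = n → Pres U (Matrix.single S T (1 : K)) := by
  intro n
  induction n with
  | zero =>
    intro S T h
    rw [Finset.card_eq_zero, Finset.sdiff_eq_empty_iff_subset] at h
    have : T = S := Subtype.ext (Finset.eq_of_subset_of_card_le h (by rw [S.2, T.2]))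
    subst this
    exact irr_diag hU T
  | succ n ih =>
    intro S T h
    obtain ⟨j, hj⟩ : (T.1 \ S.1).Nonempty := by
      rw [← Finset.card_pos]; omega
    rw [Finset.mem_sdiff] at hj
    obtain ⟨i, hi⟩ : (S.1 \ T.1).Nonempty := by
      rw [← Finset.card_pos]
      have := Finset.card_sdiff_add_card_inter S.1 T.1
      have h2 := Finset.card_sdiff_add_card_inter T.1 S.1
      rw [Finset.inter_comm, S.2] at this
      rw [T.2] at h2
      omega
    rw [Finset.mem_sdiff] at hi
    have hc : (insert j (S.1.erase i)).card = k := by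
      rw [Finset.card_insert_of_notMem (fun h => hj.2 (Finset.mem_of_mem_erase h)),
        Finset.card_erase_add_one hi.1]
      exact S.2
    let S' : Ix ι k := ⟨insert j (S.1.erase i), hc⟩
    have h1 : Pres U (Matrix.single S S' (1 : K)) := irr_step hU hi.1 hj.2 rfl
    have h2 : Pres U (Matrix.single S' T (1 : K)) := by
      apply ih
      have : T.1 \ S'.1 = (T.1 \ S.1).erase j := by
        ext x
        change x ∈ T.1 \ (insert j (S.1.erase i)) ↔ _
        simp only [Finset.mem_sdiff, Finset.mem_insert, Finset.mem_erase]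
        by_cases hx : x = j
        · simp [hx]
        · by_cases hxi : x = i
          · subst hxi; simp [hi.2]
          · simp [hx, hxi]
      rw [this, Finset.card_erase_of_mem (Finset.mem_sdiff.mpr hj), h]
      rfl
    have h3 := h1.mul h2
    rwa [Matrix.single_mul_single_same, one_mul] at h3

lemma irr (hU : ∀ π ∈ Lam K ι k, Pres U π) : U = ⊥ ∨ U = ⊤ :=
  trivial_of_single fun p q => irr_single hU _ p q rfl

end irr

end TR.W3
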